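import Pool.Agent.Helper69.BQ.St.A

/-!
# Project BQ, piece B1: the norm residue symbol at a ramified prime
-/

namespace Pool.Agent.Helper12.BQ

open Pool.Agent.Helper69.BQ

variable {p : ℕ}

private lemma zmod2_eq {a b : ZMod 2} (h : a = 0 ↔ b = 0) : a = b := by
  revert a b; decide

private lemma sq_iff (hp : p.Prime) {M m b : ZMod p} (hb : b ≠ 0) (h : M = m * b ^ 2) :
    IsSquare M ↔ IsSquare m := by
  haveI : Fact p.Prime := ⟨hp⟩
  constructor
  · rintro ⟨r, hr⟩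
    refine ⟨r / b, ?_⟩
    have : m = M / b ^ 2 := by rw [h]; field_simp
    rw [this, hr]; field_simp
  · rintro ⟨r, hr⟩
    refine ⟨r * b, ?_⟩
    rw [h, hr]; ring

/-- B1. The norm residue symbol at a prime that divides the radicand exactly once. -/
lemma nm_ram (hp : p.Prime) (hp2 : p ≠ 2) {d : ℤ} (hd : (p : ℤ) ∣ d) (hd2 : ¬ (p : ℤ) ^ 2 ∣ d)
    {g : ℚ} (hg : g ≠ 0) (h : IsNm d g) : xx p g = xx p ((-d : ℤ) : ℚ) * vv p g := by
  haveI : Fact p.Prime := ⟨hp⟩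
  have hpZ : Prime (p : ℤ) := Nat.prime_iff_prime_int.mp hp
  have hp0 : (p : ℤ) ≠ 0 := by exact_mod_cast hp.ne_zero
  have hpQ : (p : ℚ) ≠ 0 := by exact_mod_cast hp.ne_zero
  have hd0 : d ≠ 0 := by rintro rfl; exact hd2 (dvd_zero _)
  have hdQ : ((-d : ℤ) : ℚ) ≠ 0 := by exact_mod_cast (neg_ne_zero.mpr hd0)
  have hvd : vv p ((-d : ℤ) : ℚ) = 1 :=
    vv_of_dvd hp (by rwa [dvd_neg]) (by rwa [dvd_neg])
  obtain ⟨x, y, hxy⟩ := h
  by_cases hy : y = 0
  · have hx : x ≠ 0 := by rintro rfl; apply hg; rw [hxy, hy]; ring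
    have : g = x ^ 2 := by rw [hxy, hy]; ring
    rw [this, xx_sq hp hp2 hx, vv_sq hp hx, mul_zero]
  -- integers
  set t : ℚ := x / y with ht
  have hb0 : (t.den : ℤ) ≠ 0 := by exact_mod_cast t.den_ne_zero
  have hbQ : (t.den : ℚ) ≠ 0 := by exact_mod_cast t.den_ne_zero
  obtain ⟨d', hd'⟩ := hd
  set N : ℤ := t.num ^ 2 - d * (t.den : ℤ) ^ 2 with hN
  have hgN : g = (N : ℚ) * (y / t.den) ^ 2 := by
    have h1 : x = t * y := by rw [ht]; field_simp
    have h2 : (t.num : ℚ) = t * t.den := (Rat.mul_den_eq_num t).symm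
    rw [hxy, hN]
    push_cast
    rw [h2, h1]
    field_simp
  have hyt : y / t.den ≠ 0 := div_ne_zero hy hbQ
  have hN0 : (N : ℚ) ≠ 0 := by
    intro h0; apply hg; rw [hgN, h0, zero_mul]
  have hxN : xx p g = xx p (N : ℚ) := by
    rw [hgN, xx_mul hp hp2 hN0 (pow_ne_zero 2 hyt), xx_sq hp hp2 hyt, add_zero]
  have hvN : vv p g = vv p (N : ℚ) := by
    rw [hgN, vv_mul hp hN0 (pow_ne_zero 2 hyt), vv_sq hp hyt, add_zero]
  rw [hxN, hvN]
  by_cases hpa : (p : ℤ) ∣ t.num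
  · -- `p` divides the numerator
    have hpb : ¬ (p : ℤ) ∣ (t.den : ℤ) := by
      intro hb
      have hc : t.num.natAbs.Coprime t.den := t.reduced
      have h1 : p ∣ t.num.natAbs := Int.natCast_dvd.mp hpa
      have h2 : p ∣ t.den := by exact_mod_cast hb
      exact hp.one_lt.ne' (Nat.dvd_one.mp (hc ▸ Nat.dvd_gcd h1 h2))
    have hd'p : ¬ (p : ℤ) ∣ d' := by
      rintro ⟨e, he⟩
      exact hd2 ⟨e, by rw [hd', he]; ring⟩
    obtain ⟨a', ha'⟩ := hpa
    set M : ℤ := p * a' ^ 2 - d' * (t.den : ℤ) ^ 2 with hM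
    have hNM : N = p * M := by rw [hN, hM, ha', hd']; ring
    have hpM : ¬ (p : ℤ) ∣ M := by
      intro hdiv
      have : (p : ℤ) ∣ d' * (t.den : ℤ) ^ 2 := by
        have h3 : d' * (t.den : ℤ) ^ 2 = p * a' ^ 2 - M := by rw [hM]; ring
        rw [h3]
        exact dvd_sub (dvd_mul_right _ _) hdiv
      rcases hpZ.dvd_or_dvd this with h4 | h4
      · exact hd'p h4
      · exact hpb (hpZ.dvd_of_dvd_pow h4)
    have hMQ : (M : ℚ) ≠ 0 := by
      intro h0
      have : M = 0 := by exact_mod_cast h0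
      exact hpM (this ▸ dvd_zero _)
    have hnd' : ¬ (p : ℤ) ∣ -d' := by rwa [dvd_neg]
    have hnd'Q : ((-d' : ℤ) : ℚ) ≠ 0 := by
      intro h0
      have : -d' = 0 := by exact_mod_cast h0
      exact hnd' (this ▸ dvd_zero _)
    have hvvN : vv p (N : ℚ) = 1 := by
      apply vv_of_dvd hp
      · rw [hNM]; exact dvd_mul_right _ _
      · rintro ⟨e, he⟩
        apply hpM
        refine ⟨e, ?_⟩
        have h5 : (p : ℤ) * M = p * (p * e) := by rw [← hNM, he]; ring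
        exact mul_left_cancel₀ hp0 h5
    have hxxN : xx p (N : ℚ) = xx p (M : ℚ) := by
      rw [hNM]; push_cast
      rw [xx_mul hp hp2 hpQ hMQ, xx_self hp hp2, zero_add]
    have hxxd : xx p ((-d : ℤ) : ℚ) = xx p ((-d' : ℤ) : ℚ) := by
      have h6 : ((-d : ℤ) : ℚ) = (p : ℚ) * ((-d' : ℤ) : ℚ) := by
        rw [hd']; push_cast; ring
      rw [h6, xx_mul hp hp2 hpQ hnd'Q, xx_self hp hp2, zero_add]
    rw [hvvN, hxxN, hxxd, mul_one]
    apply zmod2_eq
    rw [xx_int hp hp2 hpM, xx_int hp hp2 hnd']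
    apply sq_iff hp (b := ((t.den : ℤ) : ZMod p))
    · rwa [Ne, ZMod.intCast_zmod_eq_zero_iff_dvd, ← ZMod.intCast_zmod_eq_zero_iff_dvd,
        ZMod.intCast_zmod_eq_zero_iff_dvd]
    · rw [hM]; push_cast
      rw [ZMod.natCast_self]; ring
  · -- `p` does not divide the numerator
    have hpN : ¬ (p : ℤ) ∣ N := by
      intro hdiv
      apply hpa
      apply hpZ.dvd_of_dvd_pow (n := 2)
      have h7 : t.num ^ 2 = N + p * (d' * (t.den : ℤ) ^ 2) := by rw [hN, hd']; ring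
      rw [h7]
      exact dvd_add hdiv (dvd_mul_right _ _)
    rw [vv_of_not_dvd hp hpN, mul_zero, xx_int hp hp2 hpN]
    refine ⟨((t.num : ℤ) : ZMod p), ?_⟩
    rw [hN, hd']; push_cast
    rw [ZMod.natCast_self]; ring

end Pool.Agent.Helper12.BQ
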